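import Pool.Agent.Helper10.RC.Intr

/-!
# Local data of a one-variable cover (Puiseux-type splitting)
-/

set_option autoImplicit false

namespace Pool.Agent.Helper19.RC

open Pool.Agent.Helper10.RC MvPolynomial NumberField

lemma coeff_taylor_natDegree_sub_one {A : Type*} [CommRing A] (f : Polynomial A) (hf : f.Monic)
    (hd : 1 ≤ f.natDegree) (r : A) :
    (Polynomial.taylor r f).coeff (f.natDegree - 1) =
      f.coeff (f.natDegree - 1) + f.natDegree * r := by
  rw [Polynomial.taylor_coeff]
  have h1 : (Polynomial.hasseDeriv (f.natDegree - 1) f).natDegree ≤ 1 := by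
    refine (Polynomial.natDegree_hasseDeriv_le _ _).trans ?_
    omega
  rw [Polynomial.eval_eq_sum_range' (Nat.lt_succ_of_le h1), Finset.sum_range_succ,
    Finset.sum_range_one, Polynomial.hasseDeriv_coeff, Polynomial.hasseDeriv_coeff]
  have h2 : 1 + (f.natDegree - 1) = f.natDegree := by omega
  have h3 : f.natDegree.choose (f.natDegree - 1) = f.natDegree := by
    rw [← Nat.choose_symm_of_eq_add (show f.natDegree = 1 + (f.natDegree - 1) by omega),
      Nat.choose_one_right]
  rw [h2, h3, zero_add, Nat.choose_self, hf.coeff_natDegree]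
  simp

lemma coeff_fin1 {C : Type} [Field C] (e : ℕ) (β : Fin 1 →₀ ℕ) :
    coeff β ((X 0 : MvPolynomial (Fin 1) C) ^ e) = if β 0 = e then 1 else 0 := by
  rw [coeff_X_pow]
  congr 1
  apply propext
  constructor
  · rintro rfl
    simp
  · rintro rfl
    apply Finsupp.ext
    intro i
    have : i = 0 := Subsingleton.elim _ _
    subst this
    simp

lemma coprime_aux {C A : Type} [Field C] [CommRing A] [IsDomain A] (ι : C →+* A) (te : A)
    (hte : te ≠ 0) (q₁ q₂ : Polynomial C) (h1 : q₁.Monic) (h2 : q₂.Monic)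
    (h : IsCoprime q₁ q₂) :
    IsCoprime (((q₁.map ι).scaleRoots te).map (algebraMap A (FractionRing A)))
      (((q₂.map ι).scaleRoots te).map (algebraMap A (FractionRing A))) := by
  rw [Polynomial.map_scaleRoots, Polynomial.map_scaleRoots]
  · apply Polynomial.isCoprime_scaleRoots
    · rw [isUnit_iff_ne_zero, ne_eq, map_eq_zero_iff _
        (IsFractionRing.injective A (FractionRing A))]
      exact hte
    · rw [Polynomial.map_map, Polynomial.map_map]
      have h3 := h.map (Polynomial.mapRingHom ((algebraMap A (FractionRing A)).comp ι))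
      rw [Polynomial.coe_mapRingHom] at h3
      exact h3
  · rw [(h2.map ι).leadingCoeff, map_one]
    exact one_ne_zero
  · rw [(h1.map ι).leadingCoeff, map_one]
    exact one_ne_zero

/-- A polynomial over an algebraically closed field of characteristic zero, monic of degree `δ`
with no term of degree `δ - 1` and different from `X ^ δ`, has a proper coprime factorization. -/
lemma exists_split {C : Type} [Field C] [IsAlgClosed C] [CharZero C] (q : Polynomial C)
    (hq : q.Monic) (hd : 2 ≤ q.natDegree) (h0 : q.coeff (q.natDegree - 1) = 0)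
    (h1 : ∃ k < q.natDegree, q.coeff k ≠ 0) :
    ∃ q₁ q₂ : Polynomial C, q = q₁ * q₂ ∧ q₁.Monic ∧ q₂.Monic ∧ 1 ≤ q₁.natDegree ∧
      1 ≤ q₂.natDegree ∧ IsCoprime q₁ q₂ := by
  obtain ⟨ρ, hρ⟩ := IsAlgClosed.exists_root q (by
    rw [Polynomial.degree_eq_natDegree hq.ne_zero]
    exact_mod_cast (by omega : q.natDegree ≠ 0))
  obtain ⟨q₂, h2, h3⟩ := Polynomial.exists_eq_pow_rootMultiplicity_mul_and_not_dvd q hq.ne_zero ρ
  set m := q.rootMultiplicity ρ with hm
  have hm1 : 1 ≤ m := (Polynomial.rootMultiplicity_pos hq.ne_zero).mpr hρ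
  have h4 : ((Polynomial.X - Polynomial.C ρ) ^ m).Monic := (Polynomial.monic_X_sub_C ρ).pow m
  have h5 : q₂.Monic := by
    have := hq
    rw [h2] at this
    exact h4.of_mul_monic_left this
  refine ⟨_, q₂, h2, h4, h5, ?_, ?_, ?_⟩
  · rw [Polynomial.natDegree_pow, Polynomial.natDegree_X_sub_C]
    omega
  · by_contra hcon
    have h6 : q₂.natDegree = 0 := by omega
    have h7 : q₂ = 1 := h5.natDegree_eq_zero.mp h6
    rw [h7, mul_one] at h2
    have h8 : q.natDegree = m := by
      rw [h2, Polynomial.natDegree_pow, Polynomial.natDegree_X_sub_C, mul_one]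
    have h9 : ρ = 0 := by
      have h10 := h0
      rw [h8, h2, sub_eq_add_neg, ← Polynomial.C_neg, Polynomial.coeff_X_add_C_pow, show m - (m - 1) = 1 by omega, pow_one] at h10
      have h11 : m.choose (m - 1) = m := by
        rw [← Nat.choose_symm_of_eq_add (show m = 1 + (m - 1) by omega), Nat.choose_one_right]
      rw [h11, mul_eq_zero, neg_eq_zero] at h10
      rcases h10 with h10 | h10
      · exact h10
      · exact absurd (by exact_mod_cast h10) (by omega : m ≠ 0)
    obtain ⟨k, hk, hk1⟩ := h1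
    apply hk1
    rw [h2, h9, Polynomial.C_0, sub_zero, Polynomial.coeff_X_pow, if_neg]
    omega
  · apply IsCoprime.pow_left
    exact (Polynomial.irreducible_X_sub_C ρ).coprime_iff_not_dvd.mpr h3

theorem locData_one {C : Type} [Field C] [IsAlgClosed C] [CharZero C] (R : Pl C 1) (hR : R.Monic)
    (hd : 2 ≤ R.natDegree) (hirr : ∀ N, 1 ≤ N → Irreducible (pw R N)) (ν : Fin 1 → ℝ)
    (hν : ν ≠ 0) : ∃ N, 1 ≤ N ∧ LocData (pw R N) ν := by
  classical
  have hν0 : ν 0 ≠ 0 := by
    intro h
    apply hν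
    funext j
    have : j = 0 := Subsingleton.elim _ _
    subst this
    exact h
  set δ := R.natDegree with hδ
  have hδC : (δ : C) ≠ 0 := by exact_mod_cast (by omega : δ ≠ 0)
  -- Tschirnhaus transformation
  set s : MvPolynomial (Fin 1) C := MvPolynomial.C ((δ : C)⁻¹) * R.coeff (δ - 1) with hs
  set Rt : Pl C 1 := Polynomial.taylor (-s) R with hRt
  have hRtdeg : Rt.natDegree = δ := Polynomial.natDegree_taylor _ _
  have hRtmon : Rt.Monic := by
    rw [Polynomial.Monic, hRt, Polynomial.leadingCoeff_taylor]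
    exact hR
  have hRtc : Rt.coeff (δ - 1) = 0 := by
    rw [hRt, hδ, coeff_taylor_natDegree_sub_one R hR (by omega), ← hδ, hs]
    have h1 : (δ : MvPolynomial (Fin 1) C) = MvPolynomial.C (δ : C) := by simp
    rw [h1, mul_neg, ← mul_assoc, ← MvPolynomial.C_mul, mul_inv_cancel₀ hδC]
    simp
  have hpwt : ∀ N, pw Rt N = Polynomial.taylor
      (-(expand N : MvPolynomial (Fin 1) C →ₐ[C] MvPolynomial (Fin 1) C) s) (pw R N) := by
    intro N
    rw [pw, pw, hRt, Polynomial.map_taylor]
    simp
  have hpwmon : ∀ N, (pw Rt N).Monic := fun N => hRtmon.map _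
  have hpwdeg : ∀ N, (pw Rt N).natDegree = δ := by
    intro N
    rw [pw, hRtmon.natDegree_map, hRtdeg]
  have hpwirr : ∀ N, 1 ≤ N → Irreducible (pw Rt N) := by
    intro N hN
    rw [hpwt]
    have := hirr N hN
    rw [← Polynomial.coe_taylorEquiv]
    exact (MulEquiv.irreducible_iff (Polynomial.taylorEquiv _)).mpr this
  -- the set of exponents
  set T : Finset (ℕ × (Fin 1 →₀ ℕ)) := (Finset.range δ).biUnion fun k =>
    (Rt.coeff k).support.image fun α => (k, α) with hT
  have hmemT : ∀ k α, (k, α) ∈ T ↔ k < δ ∧ coeff α (Rt.coeff k) ≠ 0 := by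
    intro k α
    simp only [hT, Finset.mem_biUnion, Finset.mem_range, Finset.mem_image, mem_support_iff]
    constructor
    · rintro ⟨k', hk', α', hα', heq⟩
      simp only [Prod.mk.injEq] at heq
      obtain ⟨rfl, rfl⟩ := heq
      exact ⟨hk', hα'⟩
    · rintro ⟨h1, h2⟩
      exact ⟨k, h1, α, h2, rfl⟩
  have hTne : T.Nonempty := by
    by_contra hcon
    rw [Finset.not_nonempty_iff_eq_empty] at hcon
    have h1 : ∀ k < δ, Rt.coeff k = 0 := by
      intro k hk
      by_contra h2
      obtain ⟨α, hα⟩ := MvPolynomial.ne_zero_iff.mp h2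
      have := (hmemT k α).mpr ⟨hk, hα⟩
      rw [hcon] at this
      exact absurd this (Finset.notMem_empty _)
    have h2 : Rt = Polynomial.X ^ δ := by
      rw [hRtmon.as_sum, hRtdeg, Finset.sum_eq_zero, add_zero]
      intro i hi
      rw [h1 i (Finset.mem_range.mp hi)]
      simp
    have h3 := hpwirr 1 le_rfl
    rw [h2, pw, Polynomial.map_pow, Polynomial.map_X] at h3
    exact not_irreducible_pow (by omega) h3
  obtain ⟨⟨k₀, α₀⟩, hk₀T, hmax⟩ := T.exists_max_image
    (fun p => ν 0 * (p.2 0 : ℕ) / ((δ : ℝ) - p.1)) hTne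
  have hk₀ := (hmemT _ _).mp hk₀T
  have hk₀δ : k₀ < δ := hk₀.1
  set N := δ - k₀ with hN
  have hN1 : 1 ≤ N := by omega
  have hNR : (N : ℝ) = (δ : ℝ) - k₀ := by
    rw [hN, Nat.cast_sub hk₀δ.le]
  set e : ℕ := α₀ 0 with he
  have hslope : ∀ k α, k < δ → coeff α (Rt.coeff k) ≠ 0 →
      ν 0 * ((N * α 0 : ℕ) : ℝ) ≤ ν 0 * e * ((δ : ℝ) - k) := by
    intro k α hk hα
    have h1 := hmax (k, α) ((hmemT _ _).mpr ⟨hk, hα⟩)
    simp only at h1
    have h2 : (0 : ℝ) < (δ : ℝ) - k := by
      have : (k : ℝ) < δ := by exact_mod_cast hk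
      linarith
    have h3 : (0 : ℝ) < (δ : ℝ) - k₀ := by
      have : (k₀ : ℝ) < δ := by exact_mod_cast hk₀δ
      linarith
    rw [div_le_div_iff₀ h2 h3] at h1
    rw [Nat.cast_mul, hNR]
    calc ν 0 * (((δ : ℝ) - k₀) * (α 0 : ℕ)) = ν 0 * (α 0 : ℕ) * ((δ : ℝ) - k₀) := by ring
      _ ≤ _ := h1
  refine ⟨N, hN1, ?_⟩
  -- coefficients of `pw Rt N`
  have hcoef : ∀ k β, coeff β ((pw Rt N).coeff k) ≠ 0 → ∃ α, β = N • α ∧
      coeff α (Rt.coeff k) ≠ 0 := by
    intro k β hβ
    rw [pw, Polynomial.coeff_map] at hβ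
    have h1 : β ∈ (expand N (Rt.coeff k)).support := by
      rw [mem_support_iff]
      exact hβ
    have h2 := support_expand_subset (p := N) (Rt.coeff k) h1
    obtain ⟨α, hα, rfl⟩ := Finset.mem_image.mp h2
    exact ⟨α, rfl, mem_support_iff.mp hα⟩
  -- the initial polynomial
  set q : Polynomial C := ∑ k ∈ Finset.range (δ + 1),
    Polynomial.monomial k (coeff (Finsupp.single 0 (e * (δ - k))) ((pw Rt N).coeff k)) with hq
  have hqcoeff : ∀ k, q.coeff k = if k < δ + 1 then
      coeff (Finsupp.single 0 (e * (δ - k))) ((pw Rt N).coeff k) else 0 := by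
    intro k
    rw [hq, Polynomial.finsetSum_coeff]
    simp only [Polynomial.coeff_monomial]
    rw [Finset.sum_ite_eq']
    simp only [Finset.mem_range]
  have hqδ : q.coeff δ = 1 := by
    rw [hqcoeff, if_pos (by omega)]
    have := (hpwmon N).coeff_natDegree
    rw [hpwdeg] at this
    rw [this]
    simp
  have hqdeg : q.natDegree = δ := by
    apply le_antisymm
    · rw [Polynomial.natDegree_le_iff_coeff_eq_zero]
      intro k hk
      rw [hqcoeff, if_neg (by omega)]
    · apply Polynomial.le_natDegree_of_ne_zero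
      rw [hqδ]
      exact one_ne_zero
  have hqmon : q.Monic := by
    rw [Polynomial.Monic, Polynomial.leadingCoeff, hqdeg, hqδ]
  have hqpred : q.coeff (q.natDegree - 1) = 0 := by
    rw [hqdeg, hqcoeff, if_pos (by omega), pw, Polynomial.coeff_map, hRtc]
    simp
  have hqk₀ : q.coeff k₀ ≠ 0 := by
    rw [hqcoeff, if_pos (by omega), pw, Polynomial.coeff_map]
    have h1 : Finsupp.single (0 : Fin 1) (e * (δ - k₀)) = N • α₀ := by
      apply Finsupp.ext
      intro i
      have : i = 0 := Subsingleton.elim _ _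
      subst this
      simp [he, hN, mul_comm]
    rw [h1]
    change coeff (N • α₀) (expand N (Rt.coeff k₀)) ≠ 0
    rw [coeff_expand_smul N (by omega)]
    exact hk₀.2
  obtain ⟨q₁, q₂, hq12, hq1m, hq2m, hq1d, hq2d, hqcop⟩ := exists_split q hqmon (by omega) hqpred
    ⟨k₀, by omega, hqk₀⟩
  set te : MvPolynomial (Fin 1) C := X 0 ^ e with hte
  set ι : C →+* MvPolynomial (Fin 1) C := MvPolynomial.C with hι
  refine ⟨pw Rt N, Polynomial.X + Polynomial.C (expand N s), 1, (q₁.map ι).scaleRoots te,
    (q₂.map ι).scaleRoots te, ν 0 * e, hpwmon N, hpwirr N hN1, ?_, ?_, ?_, ?_, ?_, ?_, ?_, ?_⟩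
  · rw [hpwt, ← Polynomial.taylor_apply, Polynomial.taylor_taylor, add_neg_cancel,
      Polynomial.taylor_zero, mul_one]
  · exact (Polynomial.monic_scaleRoots_iff _).mpr (hq1m.map _)
  · exact (Polynomial.monic_scaleRoots_iff _).mpr (hq2m.map _)
  · rw [Polynomial.natDegree_scaleRoots, hq1m.natDegree_map]
    exact hq1d
  · rw [Polynomial.natDegree_scaleRoots, hq2m.natDegree_map]
    exact hq2d
  · exact coprime_aux ι te (pow_ne_zero _ (X_ne_zero _)) q₁ q₂ hq1m hq2m hqcop
  · intro k β hβ
    rw [hpwdeg]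
    obtain ⟨α, rfl, hα⟩ := hcoef k β hβ
    rw [wt, Fin.sum_univ_one]
    have hkδ : k ≤ δ := by
      by_contra h
      rw [Polynomial.coeff_eq_zero_of_natDegree_lt (by omega)] at hα
      simp at hα
    rcases hkδ.lt_or_eq with hk | hk
    · have := hslope k α hk hα
      have h1 : (((N • α) 0 : ℕ) : ℝ) = ((N * α 0 : ℕ) : ℝ) := by simp
      rw [h1]
      nlinarith [this]
    · subst hk
      have h2 : Rt.coeff R.natDegree = 1 := by
        have := hRtmon.coeff_natDegree
        rwa [hRtdeg] at this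
      rw [h2, coeff_one] at hα
      have h3 : α = 0 := by
        by_contra h4
        rw [if_neg (fun h => h4 h.symm)] at hα
        exact hα rfl
      subst h3
      simp
  · intro k β
    rw [← Polynomial.mul_scaleRoots_of_noZeroDivisors, ← Polynomial.map_mul, ← hq12,
      Polynomial.coeff_scaleRoots, Polynomial.coeff_map, hqmon.natDegree_map, hqdeg, hpwdeg, hte,
      ← pow_mul, hι, coeff_C_mul, coeff_fin1, hqcoeff]
    by_cases hk : k < δ + 1
    · rw [if_pos hk]
      have h1 : wt ν (ν 0 * e) β k = ν 0 * e * δ ↔ β 0 = e * (δ - k) := by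
        rw [wt, Fin.sum_univ_one]
        constructor
        · intro h
          have h2 : ν 0 * ((β 0 : ℝ) + e * k) = ν 0 * (e * δ) := by linarith
          have h3 := mul_left_cancel₀ hν0 h2
          have h4 : β 0 + e * k = e * δ := by exact_mod_cast h3
          rw [Nat.mul_sub]
          omega
        · intro h
          rw [h, Nat.cast_mul, Nat.cast_sub (by omega)]
          ring
      by_cases hβ : β 0 = e * (δ - k)
      · rw [if_pos hβ, if_pos (h1.mpr hβ), mul_one]
        congr 1
        apply Finsupp.ext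
        intro i
        have : i = 0 := Subsingleton.elim _ _
        subst this
        simp [hβ]
      · rw [if_neg hβ, if_neg (fun h => hβ (h1.mp h)), mul_zero]
    · rw [if_neg hk, zero_mul, Polynomial.coeff_eq_zero_of_natDegree_lt
        (show (pw Rt N).natDegree < k by rw [hpwdeg]; omega)]
      simp

end Pool.Agent.Helper19.RC
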