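import Pool.Agent.Helper23.Partner
import Pool.Agent.Helper23.Bic

/-!
# Smoothing in the relative commutant by dissipation
-/

open scoped InnerProductSpace Topology
open ContinuousLinearMap Filter

namespace Pool.Agent.Helper23

variable {H : Type*} [NormedAddCommGroup H] [InnerProductSpace ℂ H] [CompleteSpace H]
variable {M N : VonNeumannAlgebra H} {ξ : H} {E : (H →L[ℂ] H) → (H →L[ℂ] H)}

/-- the summed transfer operator -/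
noncomputable def smPhi (M N : VonNeumannAlgebra H) (ξ : H) {ι : Type*} [Fintype ι]
    (c : ι → H →L[ℂ] H) (z : H →L[ℂ] H) : H →L[ℂ] H :=
  ∑ l, EQ M N ξ (star (c l) * z * c l)

/-- one averaging step -/
noncomputable def smT (M N : VonNeumannAlgebra H) (ξ : H) {ι : Type*} [Fintype ι]
    (c : ι → H →L[ℂ] H) (m m₀ : ℝ) (z : H →L[ℂ] H) : H →L[ℂ] H :=
  ((1 - m / (2 * m₀) : ℝ) : ℂ) • z + ((1 / (2 * m₀) : ℝ) : ℂ) • smPhi M N ξ c z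

omit [CompleteSpace H] in
/-- expansion of a squared norm of a difference -/
lemma norm_sub_sq_re (a b : H) : ‖a - b‖ ^ 2 = ‖a‖ ^ 2 - 2 * (⟪a, b⟫_ℂ).re + ‖b‖ ^ 2 := by
  have h := norm_sub_sq (𝕜 := ℂ) a b
  exact h

namespace AP

variable (S : AP M N E ξ)
include S

variable {ι : Type*} [Fintype ι] {c c' : ι → H →L[ℂ] H}

lemma sm_mem {z : H →L[ℂ] H} (hz : z ∈ Qalg M N ξ) {a b : H →L[ℂ] H} (ha : a ∈ N) (hb : b ∈ N) :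
    star a * z * b ∈ M :=
  mul_mem (mul_mem (star_mem (S.le _ ha)) (mem_Qalg.1 hz).1) (S.le _ hb)

lemma smPhi_mem (hc : ∀ l, c l ∈ N) {z : H →L[ℂ] H} (hz : z ∈ Qalg M N ξ) :
    smPhi M N ξ c z ∈ Qalg M N ξ :=
  sum_mem fun l _ => S.EQ_mem (S.sm_mem hz (hc l) (hc l))

lemma smT_mem (hc : ∀ l, c l ∈ N) {z : H →L[ℂ] H} (hz : z ∈ Qalg M N ξ) (m m₀ : ℝ) :
    smT M N ξ c m m₀ z ∈ Qalg M N ξ :=
  add_mem (smul_mem' _ hz) (smul_mem' _ (S.smPhi_mem hc hz))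

lemma inner_smPhi (hc : ∀ l, c l ∈ N) {q z : H →L[ℂ] H} (hq : q ∈ Qalg M N ξ)
    (hz : z ∈ Qalg M N ξ) :
    ⟪q ξ, smPhi M N ξ c z ξ⟫_ℂ = ∑ l, ⟪c l (q ξ), z (c l ξ)⟫_ℂ := by
  rw [smPhi, sum_apply, inner_sum]
  refine Finset.sum_congr rfl fun l _ => ?_
  rw [S.EQ_inner (S.sm_mem hz (hc l) (hc l)) hq]
  change ⟪q ξ, (star (c l)) (z (c l ξ))⟫_ℂ = _
  rw [inner_star_right]

lemma norm_inner_smPhi (hc : ∀ l, c l ∈ N) {q z : H →L[ℂ] H} (hq : q ∈ Qalg M N ξ)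
    (hz : z ∈ Qalg M N ξ) :
    ‖⟪q ξ, smPhi M N ξ c z ξ⟫_ℂ‖ ≤ (∑ l, ‖c l ξ‖ ^ 2) * (‖q ξ‖ * ‖z ξ‖) := by
  rw [S.inner_smPhi hc hq hz, Finset.sum_mul]
  refine (norm_sum_le _ _).trans (Finset.sum_le_sum fun l _ => ?_)
  refine (norm_inner_le_norm _ _).trans ?_
  rw [S.norm_NQ hq (hc l), S.norm_Q S.irr hz (hc l)]
  apply le_of_eq
  ring

lemma norm_smPhi (hc : ∀ l, c l ∈ N) {z : H →L[ℂ] H}
    (hz : z ∈ Qalg M N ξ) :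
    ‖smPhi M N ξ c z ξ‖ ≤ (∑ l, ‖c l ξ‖ ^ 2) * ‖z ξ‖ := by
  have h := S.norm_inner_smPhi hc (S.smPhi_mem hc hz) hz
  rw [inner_self_eq_norm_sq_to_K] at h
  have h4 : ‖((‖smPhi M N ξ c z ξ‖ : ℂ)) ^ 2‖ = ‖smPhi M N ξ c z ξ‖ ^ 2 := by simp
  have h5 : ‖smPhi M N ξ c z ξ‖ ^ 2 ≤
      (∑ l, ‖c l ξ‖ ^ 2) * (‖smPhi M N ξ c z ξ‖ * ‖z ξ‖) := by
    rw [← h4]; exact h
  rcases eq_or_lt_of_le (norm_nonneg (smPhi M N ξ c z ξ)) with h0 | h0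
  · rw [← h0]; positivity
  · have h6 : ‖smPhi M N ξ c z ξ‖ * ‖smPhi M N ξ c z ξ‖ ≤
        ‖smPhi M N ξ c z ξ‖ * ((∑ l, ‖c l ξ‖ ^ 2) * ‖z ξ‖) := by
      calc _ = ‖smPhi M N ξ c z ξ‖ ^ 2 := by ring
        _ ≤ _ := h5
        _ = _ := by ring
    exact le_of_mul_le_mul_left h6 h0

/-- the commutator sum through `smPhi` -/
lemma comm_sum (hc : ∀ l, c l ∈ N) {z : H →L[ℂ] H} (hz : z ∈ Qalg M N ξ) :
    ∑ l, ‖(z * c l - c l * z) ξ‖ ^ 2 =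
      2 * (∑ l, ‖c l ξ‖ ^ 2) * ‖z ξ‖ ^ 2 - 2 * (⟪z ξ, smPhi M N ξ c z ξ⟫_ℂ).re := by
  rw [S.inner_smPhi hc hz hz, Complex.re_sum, Finset.mul_sum, Finset.mul_sum, Finset.sum_mul,
    ← Finset.sum_sub_distrib]
  refine Finset.sum_congr rfl fun l _ => ?_
  have e1 : (z * c l - c l * z) ξ = z (c l ξ) - c l (z ξ) := rfl
  rw [e1, norm_sub_rev, norm_sub_sq_re, S.norm_NQ hz (hc l), S.norm_Q S.irr hz (hc l)]
  ring

/-- dissipation -/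
lemma comm_sum_le (hc : ∀ l, c l ∈ N) {z : H →L[ℂ] H} (hz : z ∈ Qalg M N ξ) {m₀ : ℝ}
    (hm₀ : 0 < m₀) (hm : ∑ l, ‖c l ξ‖ ^ 2 ≤ m₀) :
    ∑ l, ‖(z * c l - c l * z) ξ‖ ^ 2 ≤
      4 * m₀ * (‖z ξ‖ ^ 2 - ‖smT M N ξ c (∑ l, ‖c l ξ‖ ^ 2) m₀ z ξ‖ ^ 2) := by
  set m := ∑ l, ‖c l ξ‖ ^ 2 with hmdef
  have hm0 : 0 ≤ m := Finset.sum_nonneg fun l _ => by positivity
  set p := smPhi M N ξ c z ξ with hp
  set r := (⟪z ξ, p⟫_ℂ).re with hr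
  have hcs : ∑ l, ‖(z * c l - c l * z) ξ‖ ^ 2 = 2 * m * ‖z ξ‖ ^ 2 - 2 * r := S.comm_sum hc hz
  have hpos : 0 ≤ 2 * m * ‖z ξ‖ ^ 2 - 2 * r := by
    rw [← hcs]; exact Finset.sum_nonneg fun l _ => by positivity
  have hpn : ‖p‖ ≤ m * ‖z ξ‖ := S.norm_smPhi hc hz
  have hpn2 : ‖p‖ ^ 2 ≤ m ^ 2 * ‖z ξ‖ ^ 2 := by
    have := pow_le_pow_left₀ (norm_nonneg p) hpn 2
    rwa [mul_pow] at this
  -- the vector of T z
  have hT : smT M N ξ c m m₀ z ξ =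
      ((1 - m / (2 * m₀) : ℝ) : ℂ) • z ξ + ((1 / (2 * m₀) : ℝ) : ℂ) • p := rfl
  have hTn : ‖smT M N ξ c m m₀ z ξ‖ ^ 2 = (1 - m / (2 * m₀)) ^ 2 * ‖z ξ‖ ^ 2 +
      2 * ((1 - m / (2 * m₀)) * (1 / (2 * m₀)) * r) + (1 / (2 * m₀)) ^ 2 * ‖p‖ ^ 2 := by
    have h := norm_add_sq (𝕜 := ℂ) (((1 - m / (2 * m₀) : ℝ) : ℂ) • z ξ)
      (((1 / (2 * m₀) : ℝ) : ℂ) • p)
    rw [hT]
    refine h.trans ?_
    rw [norm_smul, norm_smul, Complex.norm_real, Complex.norm_real, mul_pow, mul_pow,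
      Real.norm_eq_abs, Real.norm_eq_abs, sq_abs, sq_abs, inner_smul_left, inner_smul_right,
      Complex.conj_ofReal]
    congr 2
    congr 1
    change (((1 - m / (2 * m₀) : ℝ) : ℂ) * (((1 / (2 * m₀) : ℝ) : ℂ) * ⟪z ξ, p⟫_ℂ)).re = _
    rw [Complex.re_ofReal_mul, Complex.re_ofReal_mul]
    ring
  rw [hcs, hTn]
  -- reduce to a polynomial inequality
  have key : 4 * m₀ * (‖z ξ‖ ^ 2 - ((1 - m / (2 * m₀)) ^ 2 * ‖z ξ‖ ^ 2 +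
      2 * ((1 - m / (2 * m₀)) * (1 / (2 * m₀)) * r) + (1 / (2 * m₀)) ^ 2 * ‖p‖ ^ 2)) -
      (2 * m * ‖z ξ‖ ^ 2 - 2 * r) =
      ((2 * m * ‖z ξ‖ ^ 2 - 2 * r) * (m₀ - m) + (m ^ 2 * ‖z ξ‖ ^ 2 - ‖p‖ ^ 2)) / m₀ := by
    field_simp
    ring
  have h2 : 0 ≤ ((2 * m * ‖z ξ‖ ^ 2 - 2 * r) * (m₀ - m) + (m ^ 2 * ‖z ξ‖ ^ 2 - ‖p‖ ^ 2)) / m₀ := by
    apply div_nonneg _ hm₀.le
    have h3 : 0 ≤ (2 * m * ‖z ξ‖ ^ 2 - 2 * r) * (m₀ - m) := mul_nonneg hpos (by linarith)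
    linarith
  linarith

omit S in
lemma inner_conj4 (u a b : H →L[ℂ] H) (v w : H) :
    ⟪v, (star u * (star a * b) * u) w⟫_ℂ = ⟪a (u v), b (u w)⟫_ℂ := by
  change ⟪v, (star u) ((star a) (b (u w)))⟫_ℂ = _
  rw [inner_star_right, inner_star_right]

omit S [CompleteSpace H] in
lemma sum_partner_inner (hbal : ∑ l, ⟪c l ξ, (c' l - c l) ξ⟫_ℂ = 0) :
    ∑ l, ⟪c' l ξ, c l ξ⟫_ℂ = ((∑ l, ‖c l ξ‖ ^ 2 : ℝ) : ℂ) := by
  have h1 : ∑ l, ⟪c l ξ, c' l ξ⟫_ℂ = ((∑ l, ‖c l ξ‖ ^ 2 : ℝ) : ℂ) := by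
    have h2 : ∀ l, ⟪c l ξ, (c' l - c l) ξ⟫_ℂ = ⟪c l ξ, c' l ξ⟫_ℂ - ((‖c l ξ‖ ^ 2 : ℝ) : ℂ) := by
      intro l
      rw [sub_apply, inner_sub_right, inner_self_eq_norm_sq_to_K]
      push_cast
      rfl
    simp only [h2] at hbal
    rw [Finset.sum_sub_distrib, sub_eq_zero] at hbal
    rw [hbal]
    push_cast
    rfl
  have h3 := congrArg (starRingEnd ℂ) h1
  rw [map_sum, Complex.conj_ofReal] at h3
  rw [← h3]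
  exact Finset.sum_congr rfl fun l _ => (inner_conj_symm _ _).symm

omit S [CompleteSpace H] in
lemma sum_partner_norm (hbal : ∑ l, ⟪c l ξ, (c' l - c l) ξ⟫_ℂ = 0) {δ : ℝ}
    (hδ : ∑ l, ‖(c' l - c l) ξ‖ ^ 2 ≤ δ) :
    ∑ l, ‖c' l ξ‖ ^ 2 ≤ (∑ l, ‖c l ξ‖ ^ 2) + δ := by
  have h1 : ∑ l, ‖(c' l - c l) ξ‖ ^ 2 = ∑ l, ‖c' l ξ‖ ^ 2 - ∑ l, ‖c l ξ‖ ^ 2 := by
    have h2 := congrArg Complex.re (sum_partner_inner hbal)
    rw [Complex.re_sum, Complex.ofReal_re] at h2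
    have h3 : ∀ l, ‖(c' l - c l) ξ‖ ^ 2 =
        ‖c' l ξ‖ ^ 2 - 2 * (⟪c' l ξ, c l ξ⟫_ℂ).re + ‖c l ξ‖ ^ 2 := by
      intro l
      rw [sub_apply, norm_sub_sq_re]
    simp only [h3]
    rw [Finset.sum_add_distrib, Finset.sum_sub_distrib, ← Finset.mul_sum, h2]
    ring
  linarith

/-- the key lower bound, one step -/
lemma key_step {y z : H →L[ℂ] H} (hz : z ∈ Qalg M N ξ) {A K a : ℝ}
    (hK : 0 ≤ K) (ha : 0 ≤ a)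
    (hc : ∀ l, Partner N ξ (c l) (c' l)) {m₀ δ : ℝ} (hm₀ : 0 < m₀)
    (hm : ∑ l, ‖c l ξ‖ ^ 2 ≤ m₀) (hδ : ∑ l, ‖(c' l - c l) ξ‖ ^ 2 ≤ δ)
    (hbal : ∑ l, ⟪c l ξ, (c' l - c l) ξ⟫_ℂ = 0)
    (h : ∀ d d', Partner N ξ d d' → A * ‖d ξ‖ ^ 2 -
      (K / 2) * (a * ‖d' ξ‖ ^ 2 - 2 * (⟪d' ξ, d ξ⟫_ℂ).re + ‖d ξ‖ ^ 2) ≤
      (⟪d (y ξ), z (d ξ)⟫_ℂ).re) :
    ∀ d d', Partner N ξ d d' → A * ‖d ξ‖ ^ 2 -
      (K / 2) * (a * (1 + δ / (2 * m₀)) * ‖d' ξ‖ ^ 2 - 2 * (⟪d' ξ, d ξ⟫_ℂ).re + ‖d ξ‖ ^ 2) ≤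
      (⟪d (y ξ), smT M N ξ c (∑ l, ‖c l ξ‖ ^ 2) m₀ z (d ξ)⟫_ℂ).re := by
  intro d d' hd
  set m := ∑ l, ‖c l ξ‖ ^ 2 with hmdef
  have hm0 : 0 ≤ m := Finset.sum_nonneg fun l _ => by positivity
  -- the averaging
  have havg := S.avg_le (ι := ι ⊕ ι ⊕ ι ⊕ ι)
    (x := Sum.elim (fun l => star (c l) * (z * c l)) (Sum.elim (fun l => star (c l) * c l)
      (Sum.elim (fun l => star (c' l) * c' l) (fun l => star (c' l) * c l))))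
    (by
      rintro (l | l | l | l)
      · change star (c l) * (z * c l) ∈ M
        rw [← mul_assoc]
        exact S.sm_mem hz (hc l).1 (hc l).1
      · exact S.le _ (mul_mem (star_mem (hc l).1) (hc l).1)
      · exact S.le _ (mul_mem (star_mem (hc l).2.1) (hc l).2.1)
      · exact S.le _ (mul_mem (star_mem (hc l).2.1) (hc l).1))
    (Sum.elim (fun _ => d (y ξ)) (Sum.elim (fun _ => ((-(A - K / 2) : ℝ) : ℂ) • d ξ)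
      (Sum.elim (fun _ => ((K / 2 * a : ℝ) : ℂ) • d' ξ) (fun _ => ((-K : ℝ) : ℂ) • d' ξ))))
    (Sum.elim (fun _ => d ξ) (Sum.elim (fun _ => d ξ) (Sum.elim (fun _ => d' ξ) (fun _ => d ξ))))
    (c := 0)
    (by
      intro u hu
      simp only [Fintype.sum_sum_type, Sum.elim_inl, Sum.elim_inr]
      rw [← Finset.sum_add_distrib, ← Finset.sum_add_distrib, ← Finset.sum_add_distrib]
      refine Finset.sum_nonneg fun l _ => ?_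
      rw [inner_conj4, inner_conj4, inner_conj4, inner_conj4]
      have h1 := h _ _ ((hc l).mul ((Partner.of_cent hu.1).mul hd))
      simp only [map_smul, inner_smul_left, Complex.conj_ofReal, Complex.re_ofReal_mul]
      change A * ‖c l (u (d ξ))‖ ^ 2 - (K / 2) * (a * ‖c' l (u (d' ξ))‖ ^ 2 -
        2 * (⟪c' l (u (d' ξ)), c l (u (d ξ))⟫_ℂ).re + ‖c l (u (d ξ))‖ ^ 2) ≤
        (⟪c l (u (d (y ξ))), z (c l (u (d ξ)))⟫_ℂ).re at h1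
      have e1 : (⟪c l (u (d ξ)), c l (u (d ξ))⟫_ℂ).re = ‖c l (u (d ξ))‖ ^ 2 :=
        inner_self_eq_norm_sq (𝕜 := ℂ) _
      have e2 : (⟪c' l (u (d' ξ)), c' l (u (d' ξ))⟫_ℂ).re = ‖c' l (u (d' ξ))‖ ^ 2 :=
        inner_self_eq_norm_sq (𝕜 := ℂ) _
      rw [e1, e2]
      change 0 ≤ (⟪c l (u (d (y ξ))), z (c l (u (d ξ)))⟫_ℂ).re + _
      linarith)
  simp only [Fintype.sum_sum_type, Sum.elim_inl, Sum.elim_inr] at havg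
  -- the three sums with elements of `N`
  have e2 : ∑ l, (⟪((-(A - K / 2) : ℝ) : ℂ) • d ξ, EQ M N ξ (star (c l) * c l) (d ξ)⟫_ℂ).re =
      -(A - K / 2) * (m * ‖d ξ‖ ^ 2) := by
    rw [hmdef, Finset.sum_mul, Finset.mul_sum]
    refine Finset.sum_congr rfl fun l _ => ?_
    rw [S.EQ_N (mul_mem (star_mem (hc l).1) (hc l).1), smul_apply, one_apply_eq_self,
      inner_smul_left, inner_smul_right, Complex.conj_ofReal, Complex.re_ofReal_mul]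
    have h1 : ⟪ξ, (star (c l) * c l) ξ⟫_ℂ = ((‖c l ξ‖ ^ 2 : ℝ) : ℂ) := by
      change ⟪ξ, (star (c l)) (c l ξ)⟫_ℂ = _
      rw [inner_star_right, inner_self_eq_norm_sq_to_K]
      push_cast
      rfl
    have h2 : (⟪d ξ, d ξ⟫_ℂ).re = ‖d ξ‖ ^ 2 := inner_self_eq_norm_sq (𝕜 := ℂ) _
    rw [h1, Complex.re_ofReal_mul, h2]
  have e3 : ∑ l, (⟪((K / 2 * a : ℝ) : ℂ) • d' ξ, EQ M N ξ (star (c' l) * c' l) (d' ξ)⟫_ℂ).re =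
      K / 2 * a * ((∑ l, ‖c' l ξ‖ ^ 2) * ‖d' ξ‖ ^ 2) := by
    rw [Finset.sum_mul, Finset.mul_sum]
    refine Finset.sum_congr rfl fun l _ => ?_
    rw [S.EQ_N (mul_mem (star_mem (hc l).2.1) (hc l).2.1), smul_apply, one_apply_eq_self,
      inner_smul_left, inner_smul_right, Complex.conj_ofReal, Complex.re_ofReal_mul]
    have h1 : ⟪ξ, (star (c' l) * c' l) ξ⟫_ℂ = ((‖c' l ξ‖ ^ 2 : ℝ) : ℂ) := by
      change ⟪ξ, (star (c' l)) (c' l ξ)⟫_ℂ = _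
      rw [inner_star_right, inner_self_eq_norm_sq_to_K]
      push_cast
      rfl
    have h2 : (⟪d' ξ, d' ξ⟫_ℂ).re = ‖d' ξ‖ ^ 2 := inner_self_eq_norm_sq (𝕜 := ℂ) _
    rw [h1, Complex.re_ofReal_mul, h2]
  have e4 : ∑ l, (⟪((-K : ℝ) : ℂ) • d' ξ, EQ M N ξ (star (c' l) * c l) (d ξ)⟫_ℂ).re =
      -K * (m * (⟪d' ξ, d ξ⟫_ℂ).re) := by
    have h1 : ∀ l, ⟪((-K : ℝ) : ℂ) • d' ξ, EQ M N ξ (star (c' l) * c l) (d ξ)⟫_ℂ =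
        ((-K : ℝ) : ℂ) * (⟪c' l ξ, c l ξ⟫_ℂ * ⟪d' ξ, d ξ⟫_ℂ) := by
      intro l
      rw [S.EQ_N (mul_mem (star_mem (hc l).2.1) (hc l).1), smul_apply, one_apply_eq_self,
        inner_smul_left, inner_smul_right, Complex.conj_ofReal]
      congr 2
      change ⟪ξ, (star (c' l)) (c l ξ)⟫_ℂ = _
      rw [inner_star_right]
    rw [← Complex.re_sum]
    simp only [h1]
    rw [← Finset.mul_sum, ← Finset.sum_mul, sum_partner_inner hbal, Complex.re_ofReal_mul,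
      Complex.re_ofReal_mul]
  rw [e2, e3, e4] at havg
  -- the first sum
  have e1 : ∑ l, (⟪d (y ξ), EQ M N ξ (star (c l) * (z * c l)) (d ξ)⟫_ℂ).re =
      (⟪d (y ξ), smPhi M N ξ c z (d ξ)⟫_ℂ).re := by
    rw [smPhi, sum_apply, inner_sum, Complex.re_sum]
    exact Finset.sum_congr rfl fun l _ => by rw [mul_assoc]
  rw [e1] at havg
  have hmm := sum_partner_norm hbal hδ
  have h0 := h d d' hd
  -- the inner product with `T z`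
  have hT : (⟪d (y ξ), smT M N ξ c m m₀ z (d ξ)⟫_ℂ).re =
      (1 - m / (2 * m₀)) * (⟪d (y ξ), z (d ξ)⟫_ℂ).re +
      (1 / (2 * m₀)) * (⟪d (y ξ), smPhi M N ξ c z (d ξ)⟫_ℂ).re := by
    have : smT M N ξ c m m₀ z (d ξ) = ((1 - m / (2 * m₀) : ℝ) : ℂ) • z (d ξ) +
      ((1 / (2 * m₀) : ℝ) : ℂ) • smPhi M N ξ c z (d ξ) := rfl
    rw [this, inner_add_right, inner_smul_right, inner_smul_right, Complex.add_re,
      Complex.re_ofReal_mul, Complex.re_ofReal_mul]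
  rw [hT]
  set P := (⟪d (y ξ), smPhi M N ξ c z (d ξ)⟫_ℂ).re with hP
  set R := (⟪d (y ξ), z (d ξ)⟫_ℂ).re with hR
  set X := (⟪d' ξ, d ξ⟫_ℂ).re with hX
  have hs1 : 0 ≤ 1 - m / (2 * m₀) := by
    have : m / (2 * m₀) ≤ 1 := by
      rw [div_le_one (by positivity)]; linarith
    linarith
  have hs2 : 0 ≤ 1 / (2 * m₀) := by positivity
  have hP2 : (A - K / 2) * (m * ‖d ξ‖ ^ 2) - K / 2 * a * ((m + δ) * ‖d' ξ‖ ^ 2) + K * (m * X) ≤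
      P := by
    have h5 : K / 2 * a * ((∑ l, ‖c' l ξ‖ ^ 2) * ‖d' ξ‖ ^ 2) ≤
        K / 2 * a * ((m + δ) * ‖d' ξ‖ ^ 2) := by gcongr
    linarith
  have h6 := mul_le_mul_of_nonneg_left h0 hs1
  have h7 := mul_le_mul_of_nonneg_left hP2 hs2
  refine le_trans (le_of_eq ?_) (add_le_add h6 h7)
  field_simp
  ring

/-- the iterates of the averaging step -/
noncomputable def smSeq (M N : VonNeumannAlgebra H) (ξ : H) {ι : Type*} [Fintype ι]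
    (c : ι → H →L[ℂ] H) (m m₀ : ℝ) (y : H →L[ℂ] H) : ℕ → H →L[ℂ] H
  | 0 => y
  | k + 1 => smT M N ξ c m m₀ (smSeq M N ξ c m m₀ y k)

/-- MODULE B1 : smoothing inside `Q` with respect to a balanced finite family of partner pairs. -/
theorem smoothing {y : H →L[ℂ] H} (hy : y ∈ Qalg M N ξ) {κ K : ℝ} (hκ : 0 < κ) (hK : 0 ≤ K)
    (hLB : LB N ξ y κ K) {ι : Type*} [Fintype ι] {c c' : ι → H →L[ℂ] H}
    (hc : ∀ l, Partner N ξ (c l) (c' l)) {m₀ δ : ℝ} (hm₀ : 0 < m₀)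
    (hm : ∑ l, ‖c l ξ‖ ^ 2 ≤ m₀) (hδ : ∑ l, ‖(c' l - c l) ξ‖ ^ 2 ≤ δ)
    (hbal : ∑ l, ⟪c l ξ, (c' l - c l) ξ⟫_ℂ = 0) {n : ℕ} (hn : 0 < n)
    (hnδ : K * ((1 + δ / (2 * m₀)) ^ n - 1) ≤ κ) :
    ∃ z ∈ Qalg M N ξ, ‖(z - y) ξ‖ ^ 2 ≤ 2 * κ ∧
      ∑ l, ‖(z * c l - c l * z) ξ‖ ^ 2 ≤ 8 * m₀ * κ / n := by
  have hcN : ∀ l, c l ∈ N := fun l => (hc l).1
  have hδ0 : 0 ≤ δ := le_trans (Finset.sum_nonneg fun l _ => by positivity) hδ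
  set m := ∑ l, ‖c l ξ‖ ^ 2 with hmdef
  set zs := smSeq M N ξ c m m₀ y with hzs
  set r : ℝ := 1 + δ / (2 * m₀) with hr
  have hr1 : 1 ≤ r := by
    have : 0 ≤ δ / (2 * m₀) := by positivity
    linarith
  have hzQ : ∀ k, zs k ∈ Qalg M N ξ := by
    intro k
    induction k with
    | zero => exact hy
    | succ k ih => exact S.smT_mem hcN ih m m₀
  -- monotonicity of the norms
  have hdis : ∀ k, ∑ l, ‖(zs k * c l - c l * zs k) ξ‖ ^ 2 ≤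
      4 * m₀ * (‖zs k ξ‖ ^ 2 - ‖zs (k + 1) ξ‖ ^ 2) := fun k =>
    S.comm_sum_le hcN (hzQ k) hm₀ hm
  have hstep : ∀ k, ‖zs (k + 1) ξ‖ ^ 2 ≤ ‖zs k ξ‖ ^ 2 := by
    intro k
    have h1 : 0 ≤ 4 * m₀ * (‖zs k ξ‖ ^ 2 - ‖zs (k + 1) ξ‖ ^ 2) :=
      le_trans (Finset.sum_nonneg fun l _ => by positivity) (hdis k)
    have h2 : 0 ≤ ‖zs k ξ‖ ^ 2 - ‖zs (k + 1) ξ‖ ^ 2 :=
      (mul_nonneg_iff_of_pos_left (by positivity)).1 h1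
    linarith
  have hle : ∀ k, ‖zs k ξ‖ ^ 2 ≤ ‖y ξ‖ ^ 2 := by
    intro k
    induction k with
    | zero => exact le_rfl
    | succ k ih => exact (hstep k).trans ih
  -- the key lower bound
  have hkey : ∀ k, ∀ d d', Partner N ξ d d' → (‖y ξ‖ ^ 2 - κ / 2) * ‖d ξ‖ ^ 2 -
      (K / 2) * (r ^ k * ‖d' ξ‖ ^ 2 - 2 * (⟪d' ξ, d ξ⟫_ℂ).re + ‖d ξ‖ ^ 2) ≤
      (⟪d (y ξ), zs k (d ξ)⟫_ℂ).re := by
    intro k
    induction k with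
    | zero =>
      intro d d' hd
      have h1 := hLB d d' hd
      have e1 : (y * d - d * y) ξ = y (d ξ) - d (y ξ) := rfl
      rw [e1, norm_sub_rev, norm_sub_sq_re, S.norm_NQ hy hd.1, S.norm_Q S.irr hy hd.1,
        sub_apply, norm_sub_sq_re] at h1
      change _ ≤ (⟪d (y ξ), y (d ξ)⟫_ℂ).re
      rw [pow_zero]
      nlinarith
    | succ k ih =>
      intro d d' hd
      have h1 := S.key_step (hzQ k) hK (by positivity : (0 : ℝ) ≤ r ^ k) hc hm₀ hm hδ hbal ih d d' hd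
      rw [pow_succ]
      exact h1
  have hone : ∀ k, ‖y ξ‖ ^ 2 - κ / 2 - (K / 2) * (r ^ k - 1) ≤ (⟪y ξ, zs k ξ⟫_ℂ).re := by
    intro k
    have h1 := hkey k 1 1 Partner.one
    simp only [one_apply_eq_self] at h1
    have h2 : (⟪ξ, ξ⟫_ℂ).re = 1 := by rw [S.inner_self]; rfl
    rw [h2, S.norm_one] at h1
    linarith
  have hlow : ∀ k, k ≤ n → ‖y ξ‖ ^ 2 - κ ≤ (⟪y ξ, zs k ξ⟫_ℂ).re := by
    intro k hk
    have h1 := hone k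
    have h2 : r ^ k ≤ r ^ n := pow_le_pow_right₀ hr1 hk
    have h3 : K * (r ^ k - 1) ≤ K * (r ^ n - 1) := by gcongr
    linarith
  have hclose : ∀ k, k ≤ n → ‖(zs k - y) ξ‖ ^ 2 ≤ 2 * κ := by
    intro k hk
    have h1 := hlow k hk
    have h2 := hle k
    rw [sub_apply, norm_sub_rev, norm_sub_sq_re]
    linarith
  -- the norm of the last iterate
  have hlast : ‖y ξ‖ ^ 2 - 2 * κ ≤ ‖zs n ξ‖ ^ 2 := by
    have h1 := hlow n le_rfl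
    have h2 : (⟪y ξ, zs n ξ⟫_ℂ).re ≤ ‖y ξ‖ * ‖zs n ξ‖ :=
      (Complex.re_le_norm _).trans (norm_inner_le_norm _ _)
    nlinarith [sq_nonneg (‖y ξ‖ - ‖zs n ξ‖)]
  have htel : ∑ k ∈ Finset.range n, (‖zs k ξ‖ ^ 2 - ‖zs (k + 1) ξ‖ ^ 2) ≤ 2 * κ := by
    rw [Finset.sum_range_sub']
    change ‖y ξ‖ ^ 2 - ‖zs n ξ‖ ^ 2 ≤ 2 * κ
    linarith
  have hn' : (0 : ℝ) < n := by exact_mod_cast hn
  obtain ⟨k, hk, hkle⟩ : ∃ k ∈ Finset.range n, ‖zs k ξ‖ ^ 2 - ‖zs (k + 1) ξ‖ ^ 2 ≤ 2 * κ / n := by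
    refine Finset.exists_le_of_sum_le ⟨0, Finset.mem_range.2 hn⟩ ?_
    rw [Finset.sum_const, Finset.card_range, nsmul_eq_mul]
    refine htel.trans_eq ?_
    field_simp
  rw [Finset.mem_range] at hk
  refine ⟨zs k, hzQ k, hclose k hk.le, (hdis k).trans ?_⟩
  have h1 := mul_le_mul_of_nonneg_left hkle (by positivity : (0 : ℝ) ≤ 4 * m₀)
  refine h1.trans_eq ?_
  ring

end AP

end Pool.Agent.Helper23
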