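import Pool.Agent.Helper1.SD.Cone
import Pool.Agent.Helper85.SDKSimp

set_option autoImplicit false

/-!
The section of a self-dual cone is a self-dual polytope (polarity).
-/

namespace Pool.Agent.Helper1.SD

open Matrix

variable {N : ℕ} {K : Set (Fin N → ℝ)}

/-- the points of `P` orthogonal to `S` -/
def polS (P S : Set (Fin N → ℝ)) : Set (Fin N → ℝ) := {y | y ∈ P ∧ ∀ x ∈ S, x ⬝ᵥ y = 0}

theorem polS_anti (P : Set (Fin N → ℝ)) {S T : Set (Fin N → ℝ)} (h : S ⊆ T) :
    polS P T ⊆ polS P S := fun _ hy => ⟨hy.1, fun x hx => hy.2 x (h hx)⟩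

/-- A finite sum of elements of a self-dual cone belongs to it. -/
theorem sum_mem_of_selfDual (hsd : dualOf K = K) (t : Finset (Fin N → ℝ))
    (ht : ∀ x ∈ t, x ∈ K) : ∑ x ∈ t, x ∈ K := by
  rw [← hsd]
  intro g hg
  rw [sum_dotProduct]
  refine Finset.sum_nonneg fun x hx => ?_
  have h1 := ht x hx
  rw [← hsd] at h1
  exact h1 g hg

/-- the functional `x ↦ -(g ⬝ x)` -/
noncomputable def negDot (g : Fin N → ℝ) : StrongDual ℝ (Fin N → ℝ) :=
  LinearMap.toContinuousLinearMap
    { toFun := fun x => -(g ⬝ᵥ x)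
      map_add' := fun x y => by rw [dotProduct_add, neg_add]
      map_smul' := fun c x => by simp [dotProduct_smul] }

theorem negDot_apply (g x : Fin N → ℝ) : negDot g x = -(g ⬝ᵥ x) := rfl

theorem exposed_polS {h : Fin N → ℝ} (hsd : dualOf K = K) {S : Set (Fin N → ℝ)}
    (hS : S ⊆ slice K h) : IsExposed ℝ (slice K h) (polS (slice K h) S) := by
  intro hne
  obtain ⟨t, htS, hts⟩ := (Submodule.fg_span_iff_fg_span_finset_subset S).1
    (IsNoetherian.noetherian (Submodule.span ℝ S))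
  have htK : ∀ x ∈ t, x ∈ K := fun x hx => (hS (htS hx)).1
  set g : Fin N → ℝ := ∑ x ∈ t, x with hg
  have hnn : ∀ x ∈ K, ∀ y ∈ K, 0 ≤ x ⬝ᵥ y := by
    intro x hx y hy
    rw [← hsd] at hx
    exact hx y hy
  have hgdot : ∀ y : Fin N → ℝ, g ⬝ᵥ y = ∑ x ∈ t, x ⬝ᵥ y := by
    intro y
    rw [hg, sum_dotProduct]
  have hg0 : ∀ y ∈ slice K h, 0 ≤ g ⬝ᵥ y := by
    intro y hy
    rw [hgdot]
    exact Finset.sum_nonneg fun x hx => hnn x (htK x hx) y hy.1
  -- `g ⬝ y = 0` iff `y` is orthogonal to `S`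
  have hkey : ∀ y ∈ slice K h, (g ⬝ᵥ y = 0 ↔ ∀ x ∈ S, x ⬝ᵥ y = 0) := by
    intro y hy
    rw [hgdot, Finset.sum_eq_zero_iff_of_nonneg fun x hx => hnn x (htK x hx) y hy.1]
    constructor
    · intro h1 x hx
      have h2 : x ∈ Submodule.span ℝ (t : Set (Fin N → ℝ)) := by
        rw [← hts]
        exact Submodule.subset_span hx
      refine Submodule.span_induction (p := fun z _ => z ⬝ᵥ y = 0) ?_ ?_ ?_ ?_ h2
      · intro z hz
        exact h1 z hz
      · exact zero_dotProduct _
      · intro a b _ _ ha hb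
        rw [add_dotProduct, ha, hb, add_zero]
      · intro c a _ ha
        rw [smul_dotProduct, ha, smul_zero]
    · intro h1 x hx
      exact h1 x (htS hx)
  refine ⟨negDot g, ?_⟩
  ext y
  constructor
  · rintro ⟨hy, hy0⟩
    refine ⟨hy, fun z hz => ?_⟩
    rw [negDot_apply, negDot_apply, (hkey y hy).2 hy0]
    have := hg0 z hz
    linarith
  · rintro ⟨hy, hmax⟩
    refine ⟨hy, (hkey y hy).1 ?_⟩
    obtain ⟨z, hz, hz0⟩ := hne
    have h1 := hmax z hz
    rw [negDot_apply, negDot_apply, (hkey z hz).2 hz0] at h1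
    have h2 := hg0 y hy
    linarith

theorem subset_polS_polS {P S : Set (Fin N → ℝ)} (hS : S ⊆ P) : S ⊆ polS P (polS P S) :=
  fun x hx => ⟨hS hx, fun y hy => by rw [dotProduct_comm]; exact hy.2 x hx⟩

theorem polS_polS {h : Fin N → ℝ} (hsd : dualOf K = K)
    (hpos : ∀ x ∈ K, x ≠ 0 → 0 < h ⬝ᵥ x) {F : Set (Fin N → ℝ)}
    (hF : IsExposed ℝ (slice K h) F) : polS (slice K h) (polS (slice K h) F) = F := by
  apply Set.Subset.antisymm _ (subset_polS_polS hF.subset)
  rcases F.eq_empty_or_nonempty with rfl | hne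
  · rintro y ⟨hy, hy0⟩
    have h1 : y ∈ polS (slice K h) ∅ := ⟨hy, fun x hx => absurd hx (Set.notMem_empty x)⟩
    have h2 := hy0 y h1
    have h3 : y = 0 := dotProduct_self_eq_zero.1 h2
    have h4 := hy.2
    rw [h3, dotProduct_zero] at h4
    exact absurd h4 zero_ne_one
  · obtain ⟨g, hg, rfl⟩ := ksl_exposed hsd hpos hne hF
    rintro y ⟨hy, hy0⟩
    refine ⟨⟨hy.1, ?_⟩, hy.2⟩
    by_cases hg0 : g = 0
    · rw [hg0, zero_dotProduct]
    · have hp := hpos g hg hg0
      have h1 : (h ⬝ᵥ g)⁻¹ • g ∈ polS (slice K h) (slice (perpIn K g) h) := by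
        refine ⟨⟨?_, ?_⟩, ?_⟩
        · rw [← hsd]
          intro z hz
          rw [smul_dotProduct, smul_eq_mul]
          have h2 := hg
          rw [← hsd] at h2
          exact mul_nonneg (inv_nonneg.2 hp.le) (h2 z hz)
        · rw [dotProduct_smul, smul_eq_mul, inv_mul_cancel₀ hp.ne']
        · intro x hx
          rw [dotProduct_smul, dotProduct_comm x g, hx.1.2, smul_zero]
      have h2 := hy0 _ h1
      rw [smul_dotProduct, smul_eq_mul, mul_eq_zero] at h2
      rcases h2 with h2 | h2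
      · exact absurd h2 (inv_ne_zero hp.ne')
      · exact h2

theorem selfDual_slice {h : Fin N → ℝ} (hsd : dualOf K = K) (hK : h ∈ K)
    (hpos : ∀ x ∈ K, x ≠ 0 → 0 < h ⬝ᵥ x) : SelfDual (slice K h) := by
  refine ⟨{ toFun := fun F => OrderDual.toDual
              ⟨polS (slice K h) F.1, exposed_polS hsd F.2.subset⟩
            invFun := fun F => ⟨polS (slice K h) (OrderDual.ofDual F).1,
              exposed_polS hsd (OrderDual.ofDual F).2.subset⟩
            left_inv := fun F => Subtype.ext (polS_polS hsd hpos F.2)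
            right_inv := fun F => congrArg OrderDual.toDual
              (Subtype.ext (polS_polS hsd hpos (OrderDual.ofDual F).2))
            map_rel_iff' := ?_ }⟩
  intro F G
  constructor
  · intro hle
    have h1 : polS (slice K h) G.1 ⊆ polS (slice K h) F.1 := hle
    have h2 := polS_anti (slice K h) h1
    rw [polS_polS hsd hpos F.2, polS_polS hsd hpos G.2] at h2
    exact h2
  · intro hle
    exact polS_anti (slice K h) hle

end Pool.Agent.Helper1.SD
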